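import Pool.Agent.H22.Wm2

namespace Pool.Agent.Results.MP_f4ec25_an.NormExt

open MeasureTheory Set Complex

/-- `C` bounds the functional `Φ_f` on polynomials with exponents in `J`, for the sup norm -/
def Bound (J : Set ℝ) (f : ℝ → ℂ) (C : ℝ) : Prop :=
  0 ≤ C ∧ ∀ s : Finset ℝ, (∀ x ∈ s, x ∈ J) → ∀ c : ℝ → ℂ, ∀ M : ℝ,
    (∀ t : ℝ, ‖∑ x ∈ s, c x * exp (I * (x : ℂ) * (t : ℂ))‖ ≤ M) → ‖∑ x ∈ s, c x * f x‖ ≤ C * M

/-- `Φ_f` is bounded -/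
def InR (J : Set ℝ) (f : ℝ → ℂ) : Prop := ∃ C, Bound J f C

/-- the operator norm of `Φ_f` -/
noncomputable def nrm (J : Set ℝ) (f : ℝ → ℂ) : ℝ := sInf {C | Bound J f C}

lemma bound_nrm {J : Set ℝ} {f : ℝ → ℂ} (h : InR J f) : Bound J f (nrm J f) := by
  refine ⟨le_csInf h fun _ hC => hC.1, fun s hs c M hM => ?_⟩
  rcases ((norm_nonneg _).trans (hM 0)).eq_or_lt with rfl | M0
  · obtain ⟨C, hC⟩ := h
    simpa using hC.2 s hs c 0 hM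
  · rw [← div_le_iff₀ M0]
    exact le_csInf h fun C hC => (div_le_iff₀ M0).2 (hC.2 s hs c M hM)

lemma nrm_le {J : Set ℝ} {f : ℝ → ℂ} {C : ℝ} (h : Bound J f C) : nrm J f ≤ C :=
  csInf_le ⟨0, fun _ hC => hC.1⟩ h

theorem result (A : ℝ) (_hA : 0 < A) (f : ℝ → ℂ) (hR : InR (Ioo (-A) A) f)
    (hm : AEMeasurable f (volume.restrict (Ioo (-A) A))) :
    ∃ g : ℝ → ℂ, (∀ l ∈ Ioo (-A) A, g l = f l) ∧ AEMeasurable g volume ∧ InR univ g ∧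
      nrm univ g = nrm (Ioo (-A) A) f := by
  have hb := bound_nrm hR
  obtain ⟨g, -, h1, h2, h3, -⟩ := Pool.Agent.H22.Wm.main isOpen_Ioo hb.1 hb.2 hm
  have hg : Bound univ g (nrm (Ioo (-A) A) f) := ⟨hb.1, h3⟩
  have hb' := bound_nrm ⟨_, hg⟩
  refine ⟨g, h1, h2, ⟨_, hg⟩, le_antisymm (nrm_le hg) (nrm_le ⟨hb'.1, fun s hs c M hM => ?_⟩)⟩
  rw [← Finset.sum_congr rfl fun x hx => congrArg (c x * ·) (h1 x (hs x hx))]
  exact hb'.2 s (fun _ _ => trivial) c M hM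

end Pool.Agent.Results.MP_f4ec25_an.NormExt
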